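import Pool.Agent.helper10.QT.SpecW

/-! Row bq:GRC (MP_bf63dc_nt): three factors. -/

set_option autoImplicit false

namespace Pool.Agent.AT

open Finset

open scoped Pointwise

section

variable {G : Type} [CommGroup G]

/-- the elements `g` with `g x / y ∈ S` for almost all `x`, for almost all `y` -/
def GRC_W (S : Set G) (p : Ultrafilter G) : Set G := {g | ∀ᶠ x in (p : Filter G), ∀ᶠ y in (p : Filter G), g * x / y ∈ S}

theorem GRC_one [Infinite G] (S : Set G) (K : ℕ) (hS : ∀ x ∈ S, x⁻¹ ∈ S)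
    (hK : ∀ X : Fin 4 → Finset G, (∀ i, K ≤ #(X i)) → ∃ i j, i ≠ j ∧ ∃ x ∈ X i, ∃ y ∈ X j, x / y ∈ S)
    (x : Fin 4 → G) : ∃ i j, i < j ∧ x i / x j ∈ GRC_W S (Filter.hyperfilter G) := by
  classical
  by_contra hcon
  push Not at hcon
  have hD : ∀ i j : Fin 4, i < j → ∀ᶠ a in (Filter.hyperfilter G : Filter G),
      ∀ᶠ y in (Filter.hyperfilter G : Filter G), x i * a / (x j * y) ∉ S := by
    intro i j hij
    have h1 := hcon i j hij
    unfold GRC_W at h1
    rw [Set.mem_setOf_eq, ← Ultrafilter.eventually_not] at h1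
    refine h1.mono fun a ha => ?_
    rw [← Ultrafilter.eventually_not] at ha
    refine ha.mono fun y hy => ?_
    have e : x i * a / (x j * y) = x i / x j * a / y := by
      rw [div_mul_eq_mul_div, div_div]
    rwa [e]
  have hD' : ∀ᶠ a in (Filter.hyperfilter G : Filter G), ∀ i j : Fin 4, i < j →
      ∀ᶠ y in (Filter.hyperfilter G : Filter G), x i * a / (x j * y) ∉ S := by
    rw [Filter.eventually_all]
    intro i
    rw [Filter.eventually_all]
    intro j
    by_cases hij : i < j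
    · exact (hD i j hij).mono fun a ha _ => ha
    · exact Filter.Eventually.of_forall fun a h => absurd h hij
  obtain ⟨f, -, hf⟩ := exists_seq_of_forall_finset_exists
    (fun a : G => ∀ i j : Fin 4, i < j → ∀ᶠ y in (Filter.hyperfilter G : Filter G), x i * a / (x j * y) ∉ S)
    (fun a b : G => a ≠ b ∧ ∀ i j : Fin 4, i < j → x i * a / (x j * b) ∉ S) (by
      intro s hs
      have h1 : ∀ᶠ y in (Filter.hyperfilter G : Filter G), ∀ a ∈ s, a ≠ y ∧
          ∀ i j : Fin 4, i < j → x i * a / (x j * y) ∉ S := by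
        rw [Filter.eventually_all_finset]
        intro a ha
        have h2 : ∀ᶠ y in (Filter.hyperfilter G : Filter G), a ≠ y := by
          have h3 : ({a}ᶜ : Set G) ∈ Filter.hyperfilter G := by
            apply Set.Finite.compl_mem_hyperfilter
            exact Set.finite_singleton a
          filter_upwards [h3] with y hy
          intro h
          exact hy (by rw [h]; exact Set.mem_singleton y)
        have h4 : ∀ᶠ y in (Filter.hyperfilter G : Filter G), ∀ i j : Fin 4, i < j → x i * a / (x j * y) ∉ S := by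
          rw [Filter.eventually_all]
          intro i
          rw [Filter.eventually_all]
          intro j
          by_cases hij : i < j
          · exact (hs a ha i j hij).mono fun y hy _ => hy
          · exact Filter.Eventually.of_forall fun y h => absurd h hij
        exact h2.and h4
      obtain ⟨y, hy1, hy2⟩ := (hD'.and h1).exists
      exact ⟨y, hy1, hy2⟩)
  have hinj : Function.Injective f := by
    intro a b hab
    rcases lt_trichotomy a b with h | h | h
    · exact absurd hab (hf a b h).1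
    · exact h
    · exact absurd hab.symm (hf b a h).1
  obtain ⟨i, j, hij, u, hu, v, hv, huv⟩ := hK
    (fun i => (Finset.range K).image (fun s => x i * f ((i : ℕ) * K + s))) (by
      intro i
      rw [Finset.card_image_of_injective, Finset.card_range]
      intro a b hab
      have h1 := hinj (mul_left_cancel hab)
      omega)
  rw [Finset.mem_image] at hu hv
  obtain ⟨s, hs, rfl⟩ := hu
  obtain ⟨t, ht, rfl⟩ := hv
  rw [Finset.mem_range] at hs ht
  have key : ∀ (i j : Fin 4) (s t : ℕ), i < j → s < K → t < K →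
      x i * f ((i : ℕ) * K + s) / (x j * f ((j : ℕ) * K + t)) ∉ S := by
    intro i j s t hij hs ht
    apply (hf _ _ _).2 i j hij
    have h1 : (i : ℕ) + 1 ≤ j := hij
    have h2 : ((i : ℕ) + 1) * K ≤ (j : ℕ) * K := Nat.mul_le_mul_right K h1
    have h3 : ((i : ℕ) + 1) * K = (i : ℕ) * K + K := by ring
    omega
  rcases lt_or_gt_of_ne hij with h | h
  · exact key i j s t h hs ht huv
  · have h1 := hS _ huv
    rw [inv_div] at h1
    exact key j i t s h ht hs h1

theorem GRC_mem3 (S : Set G) {a b c : G} (ha : a ∈ S) (hb : b ∈ S) (hc : c ∈ S) : a * b * c ∈ S ^ 3 := by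
  rw [pow_succ, pow_two]
  exact Set.mul_mem_mul (Set.mul_mem_mul ha hb) hc

theorem GRC_mem2 (S : Set G) {a b : G} (ha : a ∈ S) (hb : b ∈ S) : a * b ∈ S ^ 2 := by
  rw [pow_two]
  exact Set.mul_mem_mul ha hb

theorem GRC_inv (S : Set G) (hS : ∀ x ∈ S, x⁻¹ ∈ S) (n : ℕ) {a : G} (ha : a⁻¹ ∈ S ^ n) : a ∈ S ^ n := by
  have h1 : S⁻¹ = S := by
    ext x
    rw [Set.mem_inv]
    exact ⟨fun h => by simpa using hS _ h, fun h => hS _ h⟩
  have h2 : (S ^ n)⁻¹ = S ^ n := by rw [← inv_pow, h1]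
  rw [← h2, Set.mem_inv]
  exact ha

theorem GRC_two (S : Set G) (hS : ∀ x ∈ S, x⁻¹ ∈ S) (p : Ultrafilter G) {u v w : G} (hu : u ∈ GRC_W S p)
    (hv : v ∈ GRC_W S p) (hw : w⁻¹ ∈ GRC_W S p) : u * v * w ∈ S ^ 3 := by
  unfold GRC_W at hu hv hw
  rw [Set.mem_setOf_eq] at hu hv hw
  obtain ⟨x, hx1, hx2⟩ := (hu.and hw).exists
  obtain ⟨y, hy1, hy2⟩ := (hx1.and hv).exists
  obtain ⟨z, hz1, hz2⟩ := (hy2.and hx2).exists
  have h1 := GRC_mem3 S hy1 hz1 (hS _ hz2)
  have e : u * x / y * (v * y / z) * (w⁻¹ * x / z)⁻¹ = u * v * w := by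
    rw [inv_div, div_eq_mul_inv, div_eq_mul_inv, div_eq_mul_inv, mul_inv, inv_inv]
    have e1 : u * x * y⁻¹ * (v * y * z⁻¹) * (z * (w * x⁻¹)) = u * v * w * (x * x⁻¹) * (y * y⁻¹) * (z * z⁻¹) := by
      simp only [mul_assoc, mul_left_comm, mul_comm]
    rw [e1, mul_inv_cancel, mul_inv_cancel, mul_inv_cancel, mul_one, mul_one, mul_one]
  rwa [e] at h1

theorem GRC_sq (S : Set G) (hS : ∀ x ∈ S, x⁻¹ ∈ S) (p : Ultrafilter G) {u : G} (h1 : (1 : G) ∈ GRC_W S p)
    (hu : u ∈ GRC_W S p) : u ∈ S ^ 2 := by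
  unfold GRC_W at hu h1
  rw [Set.mem_setOf_eq] at hu h1
  obtain ⟨x, hx1, hx2⟩ := (hu.and h1).exists
  obtain ⟨y, hy1, hy2⟩ := (hx1.and hx2).exists
  have h3 := GRC_mem2 S hy1 (hS _ hy2)
  have e : u * x / y * (1 * x / y)⁻¹ = u := by
    rw [one_mul, inv_div, div_eq_mul_inv, div_eq_mul_inv]
    have e1 : u * x * y⁻¹ * (y * x⁻¹) = u * (x * x⁻¹) * (y * y⁻¹) := by
      simp only [mul_assoc, mul_left_comm, mul_comm]
    rw [e1, mul_inv_cancel, mul_inv_cancel, mul_one, mul_one]
  rwa [e] at h3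

end

theorem GRC (h1 : GRA_stmt) : GRC_stmt := by
  intro G _ _ S K hS hK
  obtain ⟨p, hp⟩ : ∃ p : Ultrafilter G, p = Filter.hyperfilter G := ⟨_, rfl⟩
  have hone : ∀ x : Fin 4 → G, ∃ i j, i < j ∧ x i / x j ∈ GRC_W S p := by
    rw [hp]
    exact GRC_one S K hS hK
  have h1W : (1 : G) ∈ GRC_W S p := by
    obtain ⟨i, j, -, h⟩ := hone (fun _ => 1)
    simpa using h
  have hWWW : ∀ v₁ v₂ v₃ : G, v₁ ∈ GRC_W S p → v₂ ∈ GRC_W S p → v₃ ∈ GRC_W S p → v₁ * v₂ * v₃ ∈ S ^ 3 := by
    intro v₁ v₂ v₃ hv₁ hv₂ hv₃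
    have h1W' : (1 : G)⁻¹ ∈ GRC_W S p := by rwa [inv_one]
    have hg : v₁ * v₂ * v₃ ∈ GRC_W S p → v₁ * v₂ * v₃ ∈ S ^ 3 := by
      intro h
      have := GRC_two S hS p h h1W h1W'
      rwa [mul_one, mul_one] at this
    have hb : v₁ * v₂ ∈ GRC_W S p → v₁ * v₂ * v₃ ∈ S ^ 3 := by
      intro h
      have := GRC_two S hS p h hv₃ h1W'
      rwa [mul_one] at this
    have hgb : v₁ * v₂ * v₃ * (v₁ * v₂) ∈ GRC_W S p → v₁ * v₂ * v₃ ∈ S ^ 3 := by
      intro h
      apply GRC_inv S hS
      have h2 : (v₁ * v₂ * v₃ * (v₁ * v₂))⁻¹⁻¹ ∈ GRC_W S p := by rwa [inv_inv]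
      have := GRC_two S hS p hv₁ hv₂ h2
      have e : v₁ * v₂ * (v₁ * v₂ * v₃ * (v₁ * v₂))⁻¹ = (v₁ * v₂ * v₃)⁻¹ := by
        rw [mul_inv (v₁ * v₂ * v₃), mul_comm (v₁ * v₂ * v₃)⁻¹, mul_inv_cancel_left]
      rwa [e] at this
    have hv : v₃⁻¹ ∈ GRC_W S p → v₁ * v₂ * v₃ ∈ S ^ 3 := fun h => GRC_two S hS p hv₁ hv₂ h
    obtain ⟨i, j, hij, h⟩ := hone ![v₁ * v₂ * v₃ * (v₁ * v₂), v₁ * v₂, v₁ * v₂ * v₃, 1]
    fin_cases i <;> fin_cases j <;> simp only [Fin.zero_eta, Fin.mk_one, Fin.reduceFinMk, Fin.isValue, Matrix.cons_val_zero,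
      Matrix.cons_val_one, Matrix.cons_val] at hij h
    all_goals first
      | exact absurd hij (by decide)
      | skip
    · apply hg
      rwa [mul_div_cancel_right] at h
    · apply hb
      rwa [mul_div_cancel_left] at h
    · apply hgb
      rwa [div_one] at h
    · apply hv
      have e : v₁ * v₂ / (v₁ * v₂ * v₃) = v₃⁻¹ := by
        rw [div_eq_mul_inv, mul_inv (v₁ * v₂) v₃, mul_inv_cancel_left]
      rwa [e] at h
    · apply hb
      rwa [div_one] at h
    · apply hg
      rwa [div_one] at h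
  obtain ⟨V, hV⟩ : ∃ V : Set G, ∀ g, g ∈ V ↔ (g ∈ GRC_W S p ∨ g⁻¹ ∈ GRC_W S p) :=
    ⟨{g | g ∈ GRC_W S p ∨ g⁻¹ ∈ GRC_W S p}, fun _ => Iff.rfl⟩
  have hV1 : (1 : G) ∈ V := (hV 1).2 (Or.inl h1W)
  have hVi : ∀ x ∈ V, x⁻¹ ∈ V := by
    intro x hx
    rw [hV] at hx ⊢
    rcases hx with h | h
    · exact Or.inr (by rwa [inv_inv])
    · exact Or.inl h
  have hV2 : ∀ x ∈ V, x ∈ S ^ 2 := by
    intro x hx
    rcases (hV x).1 hx with h | h
    · exact GRC_sq S hS p h1W h
    · exact GRC_inv S hS 2 (GRC_sq S hS p h1W h)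
  have hV3 : ∀ x ∈ V, x ∈ S ^ 3 := by
    intro x hx
    have h1W' : (1 : G)⁻¹ ∈ GRC_W S p := by rwa [inv_one]
    rcases (hV x).1 hx with h | h
    · have := GRC_two S hS p h h1W h1W'
      rwa [mul_one, mul_one] at this
    · have := GRC_two S hS p h h1W h1W'
      rw [mul_one, mul_one] at this
      exact GRC_inv S hS 3 this
  rcases h1 V 1 hV1 hVi (by
    intro x _
    obtain ⟨i, j, hij, h⟩ := hone x
    exact ⟨i, j, hij.ne, by rw [pow_one]; exact (hV _).2 (Or.inl h)⟩) with ⟨H, hidx, hVH, hHV⟩ | hall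
  · rw [pow_one] at hHV
    have hH2 : ∀ x ∈ H, x ∈ S ^ 2 := by
      intro x hx
      apply hV2
      rw [← hHV]
      exact hx
    by_cases hSH : ∀ x ∈ S, x ∈ H
    · left
      refine ⟨H, hidx, hSH, ?_⟩
      apply Set.Subset.antisymm
      · intro x hx
        exact hH2 x hx
      · intro x hx
        rw [pow_two, Set.mem_mul] at hx
        obtain ⟨a, ha, b, hb, rfl⟩ := hx
        exact H.mul_mem (hSH a ha) (hSH b hb)
    · right
      push Not at hSH
      obtain ⟨r, hrS, hrH⟩ := hSH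
      intro g
      have hr1 : (r : G ⧸ H) ≠ 1 := by
        rw [Ne, QuotientGroup.eq_one_iff]
        exact hrH
      have hcos : g ∈ H ∨ g * r⁻¹ ∈ H ∨ g * r ∈ H := by
        have hcase : ∀ q : ℕ, q.Prime → (q = 2 ∨ q = 3) → H.index = q → g ∈ H ∨ g * r⁻¹ ∈ H ∨ g * r ∈ H := by
          intro q hq hq23 hi
          have : Fact q.Prime := ⟨hq⟩
          have hcard : Nat.card (G ⧸ H) = q := hi
          have hmem : (g : G ⧸ H) ∈ Subgroup.zpowers (r : G ⧸ H) := mem_zpowers_of_prime_card hcard hr1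
          rw [Subgroup.mem_zpowers_iff] at hmem
          obtain ⟨k, hk⟩ := hmem
          have hrq : (r : G ⧸ H) ^ q = 1 := by
            rw [← hcard]
            exact pow_card_eq_one'
          have hk2 : (r : G ⧸ H) ^ (k % (q : ℤ)) = (g : G ⧸ H) := by
            rw [← hk]
            conv_rhs => rw [← Int.emod_add_mul_ediv k (q : ℤ)]
            rw [zpow_add, zpow_mul, zpow_natCast, hrq, one_zpow, mul_one]
          have hmod0 : 0 ≤ k % (q : ℤ) := Int.emod_nonneg _ (by exact_mod_cast hq.pos.ne')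
          have hmod1 : k % (q : ℤ) < q := Int.emod_lt_of_pos _ (by exact_mod_cast hq.pos)
          have hthree : k % (q : ℤ) = 0 ∨ k % (q : ℤ) = 1 ∨ (k % (q : ℤ) = 2 ∧ q = 3) := by
            obtain ⟨t, ht⟩ : ∃ t : ℤ, t = k % (q : ℤ) := ⟨_, rfl⟩
            rw [← ht] at hmod0 hmod1 ⊢
            rcases hq23 with h | h
            · have h2 : (q : ℤ) = 2 := by exact_mod_cast h
              omega
            · have h2 : (q : ℤ) = 3 := by exact_mod_cast h
              omega
          rcases hthree with h | h | ⟨h, h3⟩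
          · left
            rw [h, zpow_zero] at hk2
            exact (QuotientGroup.eq_one_iff g).1 hk2.symm
          · right
            left
            rw [h, zpow_one] at hk2
            rw [← QuotientGroup.eq_one_iff, QuotientGroup.mk_mul, QuotientGroup.mk_inv, ← hk2, mul_inv_cancel]
          · right
            right
            rw [h] at hk2
            rw [h3] at hrq
            rw [← QuotientGroup.eq_one_iff, QuotientGroup.mk_mul, ← hk2]
            have e : (r : G ⧸ H) ^ (2 : ℤ) * (r : G ⧸ H) = (r : G ⧸ H) ^ 3 := by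
              rw [zpow_ofNat, pow_succ (r : G ⧸ H) 2]
            rw [e, hrq]
        rcases hidx with h | h
        · exact hcase 2 Nat.prime_two (Or.inl rfl) h
        · exact hcase 3 Nat.prime_three (Or.inr rfl) h
      rcases hcos with h | h | h
      · apply hV3
        rw [← hHV]
        exact h
      · have h2 := hH2 _ h
        have h3 : g * r⁻¹ * r ∈ S ^ 2 * S := Set.mul_mem_mul h2 hrS
        rw [inv_mul_cancel_right, ← pow_succ] at h3
        exact h3
      · have h2 := hH2 _ h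
        have h3 : g * r * r⁻¹ ∈ S ^ 2 * S := Set.mul_mem_mul h2 (hS r hrS)
        rw [mul_inv_cancel_right, ← pow_succ] at h3
        exact h3
  · right
    intro g
    have hg := hall g
    have h3 : V ^ (2 * 1 + 1) = V * V * V := by
      rw [show 2 * 1 + 1 = 3 from rfl, pow_succ, pow_two]
    rw [h3, Set.mem_mul] at hg
    obtain ⟨u, hu, v₃, hv₃, rfl⟩ := hg
    rw [Set.mem_mul] at hu
    obtain ⟨v₁, hv₁, v₂, hv₂, rfl⟩ := hu
    rw [hV] at hv₁ hv₂ hv₃
    rcases hv₁ with a | a <;> rcases hv₂ with b | b <;> rcases hv₃ with c | c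
    · exact hWWW _ _ _ a b c
    · exact GRC_two S hS p a b c
    · have := GRC_two S hS p a c b
      rwa [mul_right_comm] at this
    · apply GRC_inv S hS
      have a' : v₁⁻¹⁻¹ ∈ GRC_W S p := by rwa [inv_inv]
      have := GRC_two S hS p b c a'
      have e : v₂⁻¹ * v₃⁻¹ * v₁⁻¹ = (v₁ * v₂ * v₃)⁻¹ := by
        rw [mul_inv, mul_inv]
        simp only [mul_assoc, mul_comm, mul_left_comm]
      rwa [e] at this
    · have := GRC_two S hS p b c a
      rwa [mul_comm, ← mul_assoc] at this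
    · apply GRC_inv S hS
      have b' : v₂⁻¹⁻¹ ∈ GRC_W S p := by rwa [inv_inv]
      have := GRC_two S hS p a c b'
      rw [mul_inv, mul_inv]
      rwa [mul_right_comm] at this
    · apply GRC_inv S hS
      have c' : v₃⁻¹⁻¹ ∈ GRC_W S p := by rwa [inv_inv]
      have := GRC_two S hS p a b c'
      rw [mul_inv, mul_inv]
      exact this
    · apply GRC_inv S hS
      have := hWWW _ _ _ a b c
      rw [mul_inv, mul_inv]
      exact this

end Pool.Agent.AT
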